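import Mathlib
import Pool.Agent.Results.MP_1b21e4_co.ThreeJoin
import Pool.Agent.Q250.GUniq

/-!
# MP_94a3a7_co, Q2: a sphere without missing faces of dimension larger than `i` which has the
`g`-numbers of `K(i, d-1)` is isomorphic to `K(i, d-1)`

The definitions of complexes, `ℤ/2`-homology spheres, missing faces, `S(i, d-1)` (`InS i d`),
`K(i, d-1)` (`K i d`) and isomorphisms are those of `MP_1b21e4_co/ThreeJoin`.
-/

set_option autoImplicit false

open Finset

namespace Pool.Agent.Results.MP_94a3a7_co.UniqueMinimizer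

open Pool.Agent.Results.MP_1b21e4_co.ThreeJoin (Cplx InS K Iso IsSphere hPoly)

/-- The number `f_{k-1}` of faces with `k` elements; `f_{-1} = 1` counts the empty face. -/
def fNum {V : Type} [Fintype V] [DecidableEq V] (X : Cplx V) (k : ℕ) : ℕ :=
  (X.faces.filter fun σ => σ.card = k).card

/-- The `h`-number `h_j = ∑_{k=0}^{j} (-1)^{j-k} C(d-k, d-j) f_{k-1}` of a complex of dimension
`d - 1`. -/
def hNum {V : Type} [Fintype V] [DecidableEq V] (d : ℕ) (X : Cplx V) (j : ℕ) : ℤ :=
  ∑ k ∈ range (j + 1), (-1) ^ (j - k) * ((d - k).choose (d - j) : ℤ) * fNum X k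

/-- The `g`-numbers: `g_0 = 1` and `g_j = h_j - h_{j-1}` for `j ≥ 1`. -/
def gNum {V : Type} [Fintype V] [DecidableEq V] (d : ℕ) (X : Cplx V) (j : ℕ) : ℤ :=
  if j = 0 then 1 else hNum d X j - hNum d X (j - 1)

theorem hNum_eq {V : Type} [Fintype V] [DecidableEq V] {d : ℕ} {X : Cplx V} (hX : IsSphere d X)
    {j : ℕ} (hj : j ≤ d) : hNum d X j = (hPoly d X).coeff j := by
  rw [Q250.GUniq.coeff_sum X hX]
  unfold hNum fNum
  rw [← Finset.sum_subset (Finset.range_mono (show j + 1 ≤ d + 1 by omega))]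
  · apply Finset.sum_congr rfl
    intro s hs
    rw [Finset.mem_range] at hs
    rw [if_pos (by omega), mul_comm]
    congr 3
    rw [← Nat.choose_symm (show j - s ≤ d - s by omega)]
    congr 1
    omega
  · intro s _ hs
    rw [Finset.mem_range] at hs
    rw [if_neg (by omega), mul_zero]

/-- **Answer to Q2 of MP_94a3a7_co: yes, for all `i, d ≥ 1`, without any hypothesis on `(i, d)`.**
`K(i, d-1)` lies in `S(i, d-1)`, and every `Δ ∈ S(i, d-1)` with `g_j(Δ) = g_j(K(i, d-1))` for all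
`0 ≤ j ≤ ⌊d/2⌋` is isomorphic to `K(i, d-1)`. -/
theorem result : ∀ (i d : ℕ) (hi : 1 ≤ i) (hd : 1 ≤ d),
    InS i d (K i d hi hd) ∧
    ∀ (V : Type) [Fintype V] [DecidableEq V] (X : Cplx V), InS i d X →
      (∀ j, j ≤ d / 2 → gNum d X j = gNum d (K i d hi hd) j) →
      Iso X (K i d hi hd) := by
  intro i d hi hd
  have hK : IsSphere d (K i d hi hd) :=
    Results.MP_1b21e4_co.ThreeJoin.sphere_join _ _ (Q250.GUniq.kSizes_sum hd)
  refine ⟨⟨hK, ?_⟩, ?_⟩
  · intro τ hτ
    obtain ⟨j, rfl⟩ := (Results.MP_1b21e4_co.ThreeJoin.missing_join _ τ).1 hτ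
    rw [Results.MP_1b21e4_co.ThreeJoin.card_block]
    unfold Results.MP_1b21e4_co.ThreeJoin.kSizes
    split_ifs
    · exact le_rfl
    · have := Nat.lt_div_mul_add (a := d - 1) (b := i) hi
      omega
  · intro V _ _ X hX hg
    apply Q250.GUniq.main hi hd hX
    intro j h1 h2
    have h3 := hg j h2
    unfold gNum at h3
    rw [if_neg (by omega), if_neg (by omega), hNum_eq hX.1 (by omega), hNum_eq hX.1 (by omega),
      hNum_eq hK (by omega), hNum_eq hK (by omega)] at h3
    exact h3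

end Pool.Agent.Results.MP_94a3a7_co.UniqueMinimizer
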